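import Pool.Agent.Y120.RealPolys
import Pool.Agent.TH659.AQ.Log

/-!
# The measure for logarithms of algebraic numbers at almost all tuples of rationals

For almost all tuples `q = (q_1, …, q_n)` of rationals with denominators at most `T` the logarithms
`π i` and `log (q_j + x_(j,i))` satisfy the inequality `|P| ≥ H ^ (-C)` of the problem for all heights
`H` between `T` and `T ^ A`: at most `C' T ^ (2 (n - 1) + ε)` of the `T ^ (2 n)` tuples are exceptional.
-/

set_option autoImplicit false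

open MvPolynomial

namespace Pool.Agent.Results.MP_3cf473_nt.AlmostAllRationals

/-- The complex numbers `π i` and `log (q_j + x_(j,i))` (logarithms of algebraic numbers if the
`x_(j,i)` are algebraic). -/
noncomputable def logs {n k : ℕ} (x : Fin n → Fin k → ℝ) (q : Fin n → ℚ) :
    Option (Fin n × Fin k) → ℂ
  | none => Real.pi * Complex.I
  | some (j, i) => Real.log (q j + x j i)

/-- The tuples `q` of rationals `q_j` of `[a_j, b_j]` with denominators at most `T` for which the
inequality `|P (logs)| ≥ H ^ (-C)` fails for some height `H`, `T ≤ H ≤ T ^ A`, and some nonzero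
integer polynomial `P` of degree at most `d` in each variable with coefficients at most `H`. -/
def Exceptional {n k : ℕ} (d : ℕ) (x : Fin n → Fin k → ℝ) (a b : Fin n → ℝ) (A C T : ℝ) :
    Set (Fin n → ℚ) :=
  {q | (∀ j, a j ≤ q j ∧ q j ≤ b j ∧ ((q j).den : ℝ) ≤ T) ∧
    ∃ H : ℝ, T ≤ H ∧ H ≤ T ^ A ∧ ∃ P : MvPolynomial (Option (Fin n × Fin k)) ℤ, P ≠ 0 ∧
      (∀ z, P.degreeOf z ≤ d) ∧ (∀ u, |((P.coeff u : ℤ) : ℝ)| ≤ H) ∧
      ‖aeval (logs x q) P‖ < H ^ (-C)}

/-- multiplication of the coefficients by a function of the monomial -/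
noncomputable def twist {σ : Type} (g : (σ →₀ ℕ) → ℤ) (P : MvPolynomial σ ℤ) : MvPolynomial σ ℤ :=
  ∑ u ∈ P.support, monomial u (g u * P.coeff u)

theorem coeff_twist {σ : Type} (g : (σ →₀ ℕ) → ℤ) (P : MvPolynomial σ ℤ) (u : σ →₀ ℕ) :
    (twist g P).coeff u = g u * P.coeff u := by
  classical
  unfold twist
  rw [coeff_sum]
  simp only [coeff_monomial]
  rw [Finset.sum_ite_eq']
  split_ifs with h
  · rfl
  · rw [notMem_support_iff.1 h, mul_zero]

theorem aeval_twist {σ : Type} [Fintype σ] (g : (σ →₀ ℕ) → ℤ) (P : MvPolynomial σ ℤ) (v : σ → ℂ) :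
    aeval v (twist g P) = ∑ u ∈ P.support, (g u : ℂ) * ((P.coeff u : ℤ) : ℂ) * ∏ s, v s ^ u s := by
  unfold twist
  rw [map_sum]
  refine Finset.sum_congr rfl fun u _ => ?_
  rw [aeval_monomial, Finsupp.prod_fintype _ _ (fun _ => pow_zero _)]
  simp

/-- the real part of `i ^ m` -/
def rr (m : ℕ) : ℤ := if m % 4 = 0 then 1 else if m % 4 = 2 then -1 else 0
/-- the imaginary part of `i ^ m` -/
def ss (m : ℕ) : ℤ := if m % 4 = 1 then 1 else if m % 4 = 3 then -1 else 0

theorem I_pow (m : ℕ) : Complex.I ^ m = (rr m : ℂ) + (ss m : ℂ) * Complex.I := by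
  have h1 : m = 4 * (m / 4) + m % 4 := (Nat.div_add_mod m 4).symm
  have h2 : m % 4 < 4 := Nat.mod_lt _ (by norm_num)
  have h3 : Complex.I ^ m = Complex.I ^ (m % 4) := by
    conv_lhs => rw [h1, pow_add, pow_mul, Complex.I_pow_four, one_pow, one_mul]
  rw [h3]
  unfold rr ss
  interval_cases hm : m % 4
  · simp
  · simp
  · simp
  · simp [pow_succ]

theorem rr_or (m : ℕ) : rr m ≠ 0 ∨ ss m ≠ 0 := by
  have h2 : m % 4 < 4 := Nat.mod_lt _ (by norm_num)
  unfold rr ss
  interval_cases hm : m % 4 <;> simp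

theorem abs_rr (m : ℕ) : |(rr m : ℝ)| ≤ 1 := by
  unfold rr
  split_ifs <;> simp

theorem abs_ss (m : ℕ) : |(ss m : ℝ)| ≤ 1 := by
  unfold ss
  split_ifs <;> simp

/-- a nonzero integer polynomial with the same bounds which is small at `π` and the real logarithms -/
theorem exists_real {n k : ℕ} (x : Fin n → Fin k → ℝ) (q : Fin n → ℚ)
    (P : MvPolynomial (Option (Fin n × Fin k)) ℤ) (hP : P ≠ 0) :
    ∃ Q : MvPolynomial (Option (Fin n × Fin k)) ℤ, Q ≠ 0 ∧ (∀ z, Q.degreeOf z ≤ P.degreeOf z) ∧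
      (∀ u, |((Q.coeff u : ℤ) : ℝ)| ≤ |((P.coeff u : ℤ) : ℝ)|) ∧
      |aeval (Pool.Agent.Y120.vR (fun j i t => Real.log (t + x j i)) q) Q| ≤
        ‖aeval (logs x q) P‖ := by
  classical
  set y := Pool.Agent.Y120.vR (fun j i t => Real.log (t + x j i)) q with hy
  have hdeg : ∀ g : (Option (Fin n × Fin k) →₀ ℕ) → ℤ, ∀ z,
      (twist g P).degreeOf z ≤ P.degreeOf z := by
    intro g z
    rw [degreeOf_le_iff]
    intro u hu
    refine monomial_le_degreeOf z ?_
    rw [mem_support_iff] at hu ⊢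
    intro h0
    rw [coeff_twist, h0, mul_zero] at hu
    exact hu rfl
  have hval : aeval (logs x q) P =
      ((aeval y (twist (fun u => rr (u none)) P) : ℝ) : ℂ) +
        ((aeval y (twist (fun u => ss (u none)) P) : ℝ) : ℂ) * Complex.I := by
    have hc : ∀ g, ((aeval y (twist g P) : ℝ) : ℂ) =
        ∑ u ∈ P.support, (g u : ℂ) * ((P.coeff u : ℤ) : ℂ) * ∏ s, ((y s : ℝ) : ℂ) ^ u s := by
      intro g
      rw [← aeval_twist]
      have := MvPolynomial.map_aeval y (algebraMap ℝ ℂ) (twist g P)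
      rw [Complex.coe_algebraMap] at this
      rw [this]
      rw [aeval_def]
      rfl
    rw [hc, hc, Finset.sum_mul, ← Finset.sum_add_distrib]
    have h1 : aeval (logs x q) P = ∑ u ∈ P.support, ((P.coeff u : ℤ) : ℂ) * ∏ s, logs x q s ^ u s := by
      rw [aeval_def, eval₂_eq']
      simp
    rw [h1]
    refine Finset.sum_congr rfl fun u _ => ?_
    rw [Fintype.prod_option, Fintype.prod_option]
    have h2 : logs x q none = ((y none : ℝ) : ℂ) * Complex.I := rfl
    have h3 : ∀ s, logs x q (some s) = ((y (some s) : ℝ) : ℂ) := fun s => rfl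
    rw [h2, mul_pow, I_pow]
    simp only [h3]
    ring
  have hre : |aeval y (twist (fun u => rr (u none)) P)| ≤ ‖aeval (logs x q) P‖ := by
    have h := Complex.abs_re_le_norm (aeval (logs x q) P)
    rw [hval] at h ⊢
    simpa using h
  have him : |aeval y (twist (fun u => ss (u none)) P)| ≤ ‖aeval (logs x q) P‖ := by
    have h := Complex.abs_im_le_norm (aeval (logs x q) P)
    rw [hval] at h ⊢
    simpa using h
  obtain ⟨u, hu⟩ := MvPolynomial.ne_zero_iff.1 hP
  rcases rr_or (u none) with h | h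
  · refine ⟨twist (fun u => rr (u none)) P, ?_, hdeg _, fun v => ?_, hre⟩
    · intro h0
      have := congrArg (coeff u) h0
      rw [coeff_twist, coeff_zero] at this
      exact (mul_ne_zero h hu) this
    · rw [coeff_twist]
      push_cast
      rw [abs_mul]
      nlinarith [abs_rr (v none), abs_nonneg ((P.coeff v : ℤ) : ℝ), abs_nonneg ((rr (v none) : ℤ) : ℝ)]
  · refine ⟨twist (fun u => ss (u none)) P, ?_, hdeg _, fun v => ?_, him⟩
    · intro h0
      have := congrArg (coeff u) h0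
      rw [coeff_twist, coeff_zero] at this
      exact (mul_ne_zero h hu) this
    · rw [coeff_twist]
      push_cast
      rw [abs_mul]
      nlinarith [abs_ss (v none), abs_nonneg ((P.coeff v : ℤ) : ℝ), abs_nonneg ((ss (v none) : ℤ) : ℝ)]

/-- Let `n ≥ 1`, for every `j` let `x_(j,1), …, x_(j,k)` be distinct real numbers and `a_j < b_j` with
`a_j + x_(j,i) > 0`, and let `d`, `A` and `ε > 0` be given. There are `C > 0` and `M` such that for all
`T ≥ 1` at most `M T ^ (2 (n - 1) + ε)` tuples are exceptional. -/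
theorem result (n k : ℕ) (hn : 1 ≤ n) (x : Fin n → Fin k → ℝ)
    (hx : ∀ j, Function.Injective (x j)) (a b : Fin n → ℝ) (hab : ∀ j, a j < b j)
    (hpos : ∀ j i, 0 < a j + x j i) (d : ℕ) (A ε : ℝ) (hε : 0 < ε) :
    ∃ C M : ℝ, 0 < C ∧ ∀ T : ℝ, 1 ≤ T → (Exceptional d x a b A C T).Finite ∧
      ((Exceptional d x a b A C T).ncard : ℝ) ≤ M * T ^ (2 * ((n : ℝ) - 1) + ε) := by
  obtain ⟨B, M, h⟩ := Pool.Agent.Y120.polys_eps (d := d) (fun (j : Fin n) (i : Fin k) (t : ℝ) => Real.log (t + x j i))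
    a b hab (fun j i t ht => TH659.AQ.lf_an (x j) i (by linarith [ht.1, hpos j i]))
    (fun j d' => TH659.AQ.log_ind d' k (x j) (hx j) (a j) (b j) (hpos j) (hab j)) hn A ε hε
  refine ⟨|B| + 1, M, by positivity, fun T hT => ?_⟩
  obtain ⟨hf, hle⟩ := h T hT
  have hsub : Exceptional d x a b A (|B| + 1) T ⊆
      Pool.Agent.Y120.ExR d (fun (j : Fin n) (i : Fin k) (t : ℝ) => Real.log (t + x j i)) a b A B T := by
    rintro q ⟨hq, H, hH1, hH2, P, hP0, hPd, hPc, hPs⟩
    obtain ⟨Q, hQ0, hQd, hQc, hQs⟩ := exists_real x q P hP0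
    refine ⟨hq, Q, hQ0, fun z => (hQd z).trans (hPd z), fun u => (hQc u).trans ((hPc u).trans hH2), ?_⟩
    refine hQs.trans (hPs.le.trans ?_)
    have hHT : H ^ (-(|B| + 1)) ≤ T ^ (-(|B| + 1)) :=
      Real.rpow_le_rpow_of_nonpos (by linarith) hH1 (by linarith [abs_nonneg B])
    refine hHT.trans (Real.rpow_le_rpow_of_exponent_le hT ?_)
    linarith [le_abs_self B]
  refine ⟨hf.subset hsub, le_trans ?_ hle⟩
  exact_mod_cast Set.ncard_le_ncard hsub hf

end Pool.Agent.Results.MP_3cf473_nt.AlmostAllRationals
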