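import Pool.Agent.Q23.DD.Sub
import Pool.Agent.Q23.AQ.Few
import Pool.Agent.Q165.LM

/-!
# The measure for logarithms of the values of polynomials at points of number fields

Let `l ≠ 0` be a logarithm of a root of a Gaussian rational number (for instance `π i`, `log 2`, `log (2 + i)`, any
branch), and let `p_1, …, p_k` be complex polynomials such that no product of integer powers of them, not all zero, is
constant. Let `f_i` be a branch of `log p_i` on an open set `U`. We show that for almost all `n`-tuples `(q_1, …, q_n)` of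
elements of number fields of bounded degree the numbers `l` and `f_i(q_h)` (logarithms of algebraic numbers, if the
polynomials have algebraic coefficients) satisfy the inequality `|P| ≥ H ^ (-C)` of the problem for all heights `H`
between `T` and `T ^ A`, where `T` is a bound for the height of the `q_h`. Here `(q_1, …, q_n)` may be restricted to the
`n`-tuples of elements of an arbitrary finite set.
-/

set_option autoImplicit false

open Set Filter Topology NumberField Polynomial

namespace Pool.Agent.Results.MP_3cf473_nt.LogarithmsOfPolynomialValues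

/-- The elements of the number field `F` with image in `K` which are quotients of two integers of `F` all of whose
conjugates have absolute value at most `T`. -/
def Points (F : Type) [Field F] [NumberField F] (ι : F →+* ℂ) (K : Set ℂ) (T : ℝ) : Set F :=
  {x | ι x ∈ K ∧ ∃ a b : 𝓞 F, b ≠ 0 ∧ (∀ φ : F →+* ℂ, ‖φ a‖ ≤ T ∧ ‖φ b‖ ≤ T) ∧ x = a / b}

/-- The value `P(l, v)` of a polynomial in the variables `X` and `Y_x`, written as a polynomial in the `Y_x` with
coefficients in `ℤ[X]`, at `X = l`, `Y_x = v x`. -/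
noncomputable def val {σ : Type} (l : ℂ) (v : σ → ℂ) (P : MvPolynomial σ ℤ[X]) : ℂ :=
  MvPolynomial.eval₂ (aeval l : ℤ[X] →ₐ[ℤ] ℂ).toRingHom v P

/-- The `n`-tuples `q` of elements of `X` for which, for some `H` with `T ≤ H ≤ T ^ A`, some nonzero integer polynomial
of degree at most `d` in each variable, with coefficients at most `H`, takes at `l` and the numbers `f_i(q_h)` a value
smaller than `H ^ (-C)`. -/
def Exceptional {k : ℕ} (l : ℂ) (f : Fin k → ℂ → ℂ) (n d : ℕ) (F : Type) [Field F] [NumberField F] (ι : F →+* ℂ)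
    (X : Finset F) (A C T : ℝ) : Set (Fin n → F) :=
  {q | (∀ h, q h ∈ X) ∧ ∃ H : ℝ, T ≤ H ∧ H ≤ T ^ A ∧ ∃ P : MvPolynomial (Fin n × Fin k) ℤ[X], P ≠ 0 ∧
    (∀ x, P.degreeOf x ≤ d) ∧ (∀ s, (P.coeff s).natDegree ≤ d) ∧ (∀ s j, |((P.coeff s).coeff j : ℝ)| ≤ H) ∧
    ‖val l (fun x => f x.2 (ι (q x.1))) P‖ < H ^ (-C)}

/-! ### Linear algebra -/

theorem rinv {k r : ℕ} (e : Fin k → Fin r → ℤ) (he : ∀ m : Fin k → ℤ, (∀ j, ∑ i, m i * e i j = 0) → m = 0) :
    ∃ N : Fin r → Fin k → ℚ, ∀ i i', ∑ j, (e i j : ℚ) * N j i' = if i = i' then 1 else 0 := by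
  classical
  let v : Fin k → (Fin r → ℚ) := fun i j => (e i j : ℚ)
  have hZ : LinearIndependent ℤ v := by
    rw [Fintype.linearIndependent_iff]
    intro m hm
    have h1 := he m (fun j => by
      have h2 : ∑ i, (m i : ℚ) * (e i j : ℚ) = 0 := by
        have h3 := congrFun hm j
        simpa [v, Finset.sum_apply] using h3
      exact_mod_cast h2)
    intro i
    rw [h1]
    rfl
  have hQ : LinearIndependent ℚ v := (LinearIndependent.iff_fractionRing ℤ ℚ).1 hZ
  obtain ⟨L, hL⟩ := LinearMap.exists_leftInverse_of_injective _ (linearIndependent_iff_ker.1 hQ)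
  refine ⟨fun j i => L (Pi.single j 1) i, fun i i' => ?_⟩
  have h1 : L (v i) = Finsupp.single i 1 := by
    have h2 := LinearMap.congr_fun hL (Finsupp.single i 1)
    rw [LinearMap.comp_apply, Finsupp.linearCombination_single, one_smul, LinearMap.id_apply] at h2
    exact h2
  have h2 : v i = ∑ j, (e i j : ℚ) • (Pi.single j 1 : Fin r → ℚ) := by
    funext j
    rw [Finset.sum_apply, Finset.sum_eq_single j]
    · simp [v]
    · intro b _ hb
      simp [Ne.symm hb]
    · intro h
      exact absurd (Finset.mem_univ _) h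
  rw [h2, map_sum] at h1
  have h3 := DFunLike.congr_fun h1 i'
  rw [Finsupp.finsetSum_apply, Finsupp.single_apply] at h3
  rw [← h3]
  refine Finset.sum_congr rfl fun j _ => ?_
  rw [map_smul, Finsupp.smul_apply, smul_eq_mul]

/-- affine images of independent functions -/
theorem locInd_affine {k r : ℕ} (g : Fin r → ℂ → ℂ) (f : Fin k → ℂ → ℂ) (z0 : ℂ) (hg : Y124.LocInd g z0)
    (e : Fin k → Fin r → ℂ) (a : Fin k → ℂ) (N : Fin r → Fin k → ℂ)
    (hN : ∀ i i', ∑ j, e i j * N j i' = if i = i' then 1 else 0)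
    (hfg : ∀ i, ∀ᶠ z in 𝓝 z0, f i z = a i + ∑ j, e i j * g j z) : Y124.LocInd f z0 := by
  classical
  intro P hP
  let φ : MvPolynomial (Option (Fin k)) ℂ →ₐ[ℂ] MvPolynomial (Option (Fin r)) ℂ :=
    MvPolynomial.aeval fun o => o.elim (MvPolynomial.X none) fun i =>
      MvPolynomial.C (a i) + ∑ j, MvPolynomial.C (e i j) * MvPolynomial.X (some j)
  let ψ : MvPolynomial (Option (Fin r)) ℂ →ₐ[ℂ] MvPolynomial (Option (Fin k)) ℂ :=
    MvPolynomial.aeval fun o => o.elim (MvPolynomial.X none) fun j =>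
      ∑ i, MvPolynomial.C (N j i) * (MvPolynomial.X (some i) - MvPolynomial.C (a i))
  have hcomp : ψ.comp φ = AlgHom.id ℂ _ := by
    refine MvPolynomial.algHom_ext fun o => ?_
    rcases o with _ | i
    · simp [φ, ψ]
    · simp only [φ, ψ, AlgHom.comp_apply, MvPolynomial.aeval_X, Option.elim_some, map_add, map_sum, map_mul,
        MvPolynomial.algHom_C, MvPolynomial.algebraMap_eq, AlgHom.coe_id, id_eq]
      have h1 : ∑ j, (MvPolynomial.C (e i j) : MvPolynomial (Option (Fin k)) ℂ) *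
          ∑ i', MvPolynomial.C (N j i') * (MvPolynomial.X (some i') - MvPolynomial.C (a i')) =
          ∑ i', MvPolynomial.C (∑ j, e i j * N j i') * (MvPolynomial.X (some i') - MvPolynomial.C (a i')) := by
        simp only [map_sum, map_mul, Finset.sum_mul, Finset.mul_sum]
        rw [Finset.sum_comm]
        refine Finset.sum_congr rfl fun i' _ => Finset.sum_congr rfl fun j _ => ?_
        ring
      rw [h1]
      simp only [hN]
      rw [Finset.sum_eq_single i]
      · simp
      · intro b _ hb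
        simp [Ne.symm hb]
      · intro h
        exact absurd (Finset.mem_univ _) h
  have key : ∀ (pt : Option (Fin r) → ℂ) (Q : MvPolynomial (Option (Fin k)) ℂ), MvPolynomial.eval pt (φ Q) =
      MvPolynomial.eval (fun o => o.elim (pt none) fun i => a i + ∑ j, e i j * pt (some j)) Q := by
    intro pt Q
    induction Q using MvPolynomial.induction_on with
    | C c => simp [φ]
    | add p q hp hq => simp only [map_add, hp, hq]
    | mul_X p o hp =>
      rw [map_mul, map_mul, map_mul, hp, MvPolynomial.eval_X]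
      congr 1
      rcases o with _ | i
      · simp [φ]
      · simp [φ]
  have h2 : φ P = 0 := by
    refine hg _ ?_
    filter_upwards [hP, eventually_all.2 hfg] with z hz hz'
    rw [key, ← hz]
    congr 1
    congr 1
    funext o
    rcases o with _ | i
    · rfl
    · exact (hz' i).symm
  have h3 := congrArg ψ h2
  rw [map_zero, ← AlgHom.comp_apply, hcomp] at h3
  exact h3

/-! ### Logarithms of polynomials -/

/-- near a point of `U` a branch of `log p_i` is an integer combination of branches of `log (z - w_j)` -/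
theorem local_form {k : ℕ} (p : Fin k → ℂ[X]) (hp0 : ∀ i, p i ≠ 0) (U : Set ℂ) (hU : IsOpen U) (f : Fin k → ℂ → ℂ)
    (hf : ∀ i, ContinuousOn (f i) U ∧ ∀ z ∈ U, Complex.exp (f i z) = (p i).eval z) (z0 : ℂ) (hz0 : z0 ∈ U) {r : ℕ}
    (w : Fin r → ℂ) (hw : Function.Injective w) (hroots : ∀ i, ∀ x ∈ (p i).roots, x ∈ range w)
    (hw0 : ∀ j, w j ≠ z0) (i : Fin k) :
    ∀ᶠ z in 𝓝 z0, f i z = f i z0 + ∑ j, ((p i).rootMultiplicity (w j) : ℂ) * Complex.log ((z - w j) / (z0 - w j)) := by
  classical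
  -- the factorization
  have hfac : ∀ z, (p i).eval z = (p i).leadingCoeff * ∏ j, (z - w j) ^ (p i).rootMultiplicity (w j) := by
    intro z
    have h1 := (IsAlgClosed.splits (p i)).eq_prod_roots
    have h2 : (((p i).roots.map fun a => X - C a).prod : ℂ[X]) = ∏ j, (X - C (w j)) ^ (p i).rootMultiplicity (w j) := by
      rw [Finset.prod_multiset_map_count]
      rw [← Finset.prod_image (f := fun a => (X - C a : ℂ[X]) ^ (p i).rootMultiplicity a) (fun a _ b _ h => hw h)]
      simp only [count_roots]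
      refine Finset.prod_subset ?_ ?_
      · intro a ha
        obtain ⟨j, hj⟩ := hroots i a (Multiset.mem_toFinset.1 ha)
        exact Finset.mem_image.2 ⟨j, Finset.mem_univ _, hj⟩
      · intro a _ ha
        rw [← count_roots, Multiset.count_eq_zero_of_notMem (fun h => ha (Multiset.mem_toFinset.2 h)), pow_zero]
    conv_lhs => rw [h1, h2]
    simp [eval_prod]
  have hlc : (p i).leadingCoeff ≠ 0 := leadingCoeff_ne_zero.2 (hp0 i)
  have hd : ∀ j, z0 - w j ≠ 0 := fun j => sub_ne_zero.2 (hw0 j).symm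
  -- the difference
  let g : ℂ → ℂ := fun z => f i z - f i z0 -
    ∑ j, ((p i).rootMultiplicity (w j) : ℂ) * Complex.log ((z - w j) / (z0 - w j))
  have hslit : ∀ j, ∀ᶠ z in 𝓝 z0, (z - w j) / (z0 - w j) ∈ Complex.slitPlane := by
    intro j
    have hc : ContinuousAt (fun z : ℂ => (z - w j) / (z0 - w j)) z0 := by fun_prop
    refine hc.eventually_mem (Complex.isOpen_slitPlane.mem_nhds ?_)
    rw [div_self (hd j)]
    exact Complex.one_mem_slitPlane
  have hgc : ContinuousAt g z0 := by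
    have h1 : ContinuousAt (f i) z0 := (hf i).1.continuousAt (hU.mem_nhds hz0)
    refine (h1.sub continuousAt_const).sub ?_
    refine tendsto_finsetSum _ fun j _ => ?_
    refine Tendsto.const_mul _ ?_
    have h2 := (hslit j).self_of_nhds
    exact (ContinuousAt.clog (f := fun z : ℂ => (z - w j) / (z0 - w j)) (by fun_prop) h2)
  have hg0 : g z0 = 0 := by
    simp only [g, sub_self, zero_sub, neg_eq_zero]
    refine Finset.sum_eq_zero fun j _ => ?_
    rw [div_self (hd j), Complex.log_one, mul_zero]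
  have hexp : ∀ z ∈ U, (∀ j, (z - w j) / (z0 - w j) ∈ Complex.slitPlane) → Complex.exp (g z) = 1 := by
    intro z hz hs
    simp only [g]
    rw [Complex.exp_sub, Complex.exp_sub, Complex.exp_sum, (hf i).2 z hz, (hf i).2 z0 hz0, hfac z, hfac z0]
    have h1 : ∏ j, Complex.exp (((p i).rootMultiplicity (w j) : ℂ) * Complex.log ((z - w j) / (z0 - w j))) =
        (∏ j, (z - w j) ^ (p i).rootMultiplicity (w j)) / ∏ j, (z0 - w j) ^ (p i).rootMultiplicity (w j) := by
      rw [← Finset.prod_div_distrib]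
      refine Finset.prod_congr rfl fun j _ => ?_
      rw [Complex.exp_nat_mul, Complex.exp_log (Complex.slitPlane_ne_zero (hs j)), div_pow]
    rw [h1]
    have h2 : ∏ j, (z0 - w j) ^ (p i).rootMultiplicity (w j) ≠ 0 :=
      Finset.prod_ne_zero_iff.2 fun j _ => pow_ne_zero _ (hd j)
    have h3 : ∏ j, (z - w j) ^ (p i).rootMultiplicity (w j) ≠ 0 :=
      Finset.prod_ne_zero_iff.2 fun j _ => pow_ne_zero _ (fun h => Complex.slitPlane_ne_zero (hs j) (by rw [h, zero_div]))
    field_simp
  have hsmall : ∀ᶠ z in 𝓝 z0, ‖g z‖ < 1 := by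
    have h1 : Tendsto (fun z => ‖g z‖) (𝓝 z0) (𝓝 0) := by
      have := hgc.norm
      rwa [ContinuousAt, hg0, norm_zero] at this
    exact h1.eventually_lt_const one_pos
  filter_upwards [hU.mem_nhds hz0, eventually_all.2 hslit, hsmall] with z hz hs hsm
  obtain ⟨n, hn⟩ := Complex.exp_eq_one_iff.1 (hexp z hz hs)
  have hn0 : n = 0 := by
    by_contra hne
    have h1 : (1 : ℝ) ≤ |(n : ℝ)| := by exact_mod_cast Int.one_le_abs hne
    rw [hn, norm_mul, norm_mul, norm_mul, Complex.norm_intCast, Complex.norm_ofNat, Complex.norm_real, Complex.norm_I,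
      mul_one, Real.norm_eq_abs, abs_of_pos Real.pi_pos] at hsm
    nlinarith [Real.pi_gt_three]
  rw [hn0, Int.cast_zero, zero_mul] at hn
  simp only [g] at hn
  linear_combination hn

/-- a finite set of points which contains the zeros -/
theorem exists_w {k : ℕ} (p : Fin k → ℂ[X]) :
    ∃ (r : ℕ) (w : Fin r → ℂ), Function.Injective w ∧ (∀ i, ∀ x ∈ (p i).roots, x ∈ range w) ∧
      ∀ j, ∃ i, w j ∈ (p i).roots := by
  classical
  let W : Finset ℂ := Finset.univ.biUnion fun i => (p i).roots.toFinset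
  refine ⟨W.card, fun j => (W.equivFin.symm j : ℂ), fun a b h => ?_, fun i x hx => ?_, fun j => ?_⟩
  · exact W.equivFin.symm.injective (Subtype.ext h)
  · have hxW : x ∈ W := Finset.mem_biUnion.2 ⟨i, Finset.mem_univ _, Multiset.mem_toFinset.2 hx⟩
    exact ⟨W.equivFin ⟨x, hxW⟩, by simp⟩
  · obtain ⟨i, -, hi⟩ := Finset.mem_biUnion.1 (W.equivFin.symm j).2
    exact ⟨i, Multiset.mem_toFinset.1 hi⟩

/-- branches of `log p_i` are algebraically independent over the rational functions -/
theorem log_locInd {k : ℕ} (p : Fin k → ℂ[X]) (hp0 : ∀ i, p i ≠ 0)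
    (hp : ∀ m : Fin k → ℤ, (∀ w : ℂ, ∑ i, m i * ((p i).rootMultiplicity w : ℤ) = 0) → m = 0)
    (U : Set ℂ) (hU : IsOpen U) (f : Fin k → ℂ → ℂ)
    (hf : ∀ i, ContinuousOn (f i) U ∧ ∀ z ∈ U, Complex.exp (f i z) = (p i).eval z) (z0 : ℂ) (hz0 : z0 ∈ U) :
    Y124.LocInd f z0 ∧ ∀ i, AnalyticAt ℂ (f i) z0 := by
  classical
  obtain ⟨r, w, hw, hroots, hw1⟩ := exists_w p
  have hnz : ∀ z ∈ U, ∀ j, w j ≠ z := by
    intro z hz j h
    obtain ⟨i, hi⟩ := hw1 j
    have h1 := (mem_roots'.1 hi).2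
    have h2 := (hf i).2 z hz
    rw [IsRoot, h] at h1
    rw [h1] at h2
    exact Complex.exp_ne_zero _ h2
  have hw0 := hnz z0 hz0
  have hd : ∀ j, z0 - w j ≠ 0 := fun j => sub_ne_zero.2 (hw0 j).symm
  have hloc := fun i => local_form p hp0 U hU f hf z0 hz0 w hw hroots hw0 i
  -- the logarithms
  let g : Fin r → ℂ → ℂ := fun j z => Complex.log ((z - w j) / (z0 - w j))
  let V : Set ℂ := U ∩ ⋂ j, (fun z : ℂ => (z - w j) / (z0 - w j)) ⁻¹' Complex.slitPlane
  have hV : IsOpen V := hU.inter (isOpen_iInter_of_finite fun j =>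
    Complex.isOpen_slitPlane.preimage (by fun_prop))
  have hz0V : z0 ∈ V := by
    refine ⟨hz0, mem_iInter.2 fun j => ?_⟩
    show (z0 - w j) / (z0 - w j) ∈ Complex.slitPlane
    rw [div_self (hd j)]
    exact Complex.one_mem_slitPlane
  have hgd : ∀ j, ∀ z ∈ V, HasDerivAt (g j) (1 / (z - w j)) z := by
    intro j z hz
    have hs : (z - w j) / (z0 - w j) ∈ Complex.slitPlane := mem_iInter.1 hz.2 j
    have h1 : HasDerivAt (fun z : ℂ => (z - w j) / (z0 - w j)) (1 / (z0 - w j)) z :=
      ((hasDerivAt_id z).sub_const _).div_const _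
    have h2 := h1.clog hs
    have h3 : z - w j ≠ 0 := sub_ne_zero.2 (hnz z hz.1 j).symm
    have h4 := hd j
    have e : 1 / (z0 - w j) / ((z - w j) / (z0 - w j)) = 1 / (z - w j) := by
      field_simp
    rw [e] at h2
    exact h2
  have hgI : Y124.LocInd g z0 := by
    refine Q23.DD.expint_sub (κ := Fin r) (m := 0) (s := 1) (r := r) (fun i => i.elim0) (fun _ _ => Subsingleton.elim _ _)
      (fun _ => fun i => i.elim0) (fun _ _ _ => Subsingleton.elim _ _) (fun _ => 0) (fun l => by simp) w hw V hV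
      (fun j => Sum.inr (Sum.inr (0, j))) (fun a b h => by simpa using h) g (fun y j => j.elim0)
      (fun y l k h => by simp at h) (fun y l i h z hz => ?_) z0 hz0V
    simp only [Sum.inr.injEq, Prod.mk.injEq] at h
    rw [← h.2]
    simpa using hgd y z hz
  obtain ⟨N, hN⟩ := rinv (fun i j => ((p i).rootMultiplicity (w j) : ℤ)) (fun m hm => hp m fun x => by
    by_cases hx : x ∈ range w
    · obtain ⟨j, rfl⟩ := hx
      exact hm j
    · refine Finset.sum_eq_zero fun i _ => ?_
      have h1 : x ∉ (p i).roots := fun h => hx (hroots i x h)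
      rw [← count_roots, Multiset.count_eq_zero_of_notMem h1]
      simp)
  refine ⟨locInd_affine g f z0 hgI (fun i j => ((p i).rootMultiplicity (w j) : ℂ)) (fun i => f i z0)
    (fun j i => (N j i : ℂ)) (fun i i' => ?_) hloc, fun i => ?_⟩
  · have h1 := hN i i'
    have h2 : ((∑ j, (((p i).rootMultiplicity (w j) : ℤ) : ℚ) * N j i' : ℚ) : ℂ) = ((if i = i' then 1 else 0 : ℚ) : ℂ) := by
      rw [h1]
    push_cast at h2
    rw [h2]
    split_ifs <;> simp
  · refine AnalyticAt.congr ?_ (EventuallyEq.symm (hloc i))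
    refine analyticAt_const.add (Finset.analyticAt_fun_sum _ fun j _ => analyticAt_const.mul ?_)
    refine AnalyticAt.clog ?_ ?_
    · exact (analyticAt_id.sub analyticAt_const).div analyticAt_const (hd j)
    · rw [div_self (hd j)]
      exact Complex.one_mem_slitPlane

/-! ### The theorem -/

/-- **Logarithms of values of polynomials.** -/
theorem result (l : ℂ) (hl : l ≠ 0) (hlog : ∃ m : ℕ, 1 ≤ m ∧ ∃ a b : ℚ, Complex.exp (m * l) = a + b * Complex.I)
    {k : ℕ} (p : Fin k → ℂ[X]) (hp0 : ∀ i, p i ≠ 0)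
    (hp : ∀ m : Fin k → ℤ, (∀ w : ℂ, ∑ i, m i * ((p i).rootMultiplicity w : ℤ) = 0) → m = 0)
    (U : Set ℂ) (hU : IsOpen U) (f : Fin k → ℂ → ℂ)
    (hf : ∀ i, ContinuousOn (f i) U ∧ ∀ z ∈ U, Complex.exp (f i z) = (p i).eval z)
    (K : Set ℂ) (hK : IsCompact K) (hKU : K ⊆ U) (m n d : ℕ) (A ε : ℝ) (hε : 0 < ε) :
    ∃ C c T₀ : ℝ, 0 < C ∧ ∀ (F : Type) [Field F] [NumberField F], Module.finrank ℚ F ≤ m → ∀ (ι : F →+* ℂ) (T : ℝ),
      T₀ ≤ T → ∀ X : Finset F, (∀ x ∈ X, x ∈ Points F ι K T) →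
        (Exceptional l f n d F ι X A C T).Finite ∧
        ((Exceptional l f n d F ι X A C T).ncard : ℝ) ≤ c * T ^ ε * (X.card : ℝ) ^ (n - 1) := by
  classical
  obtain ⟨m₁, hm₁, a₁, b₁, hab⟩ := hlog
  obtain ⟨κ, c₀, hκ, hc₀, hmeas⟩ := Pool.Agent.Q165.LM.measT_gaussLog l hl m₁ hm₁ a₁ b₁ hab d
  obtain ⟨B, c, T₀, H⟩ := Q23.AQ.fewC f K hK (fun y t ht => (log_locInd p hp0 hp U hU f hf t (hKU ht)).2 y)
    (fun t ht => (log_locInd p hp0 hp U hU f hf t (hKU ht)).1) m n (d + 1) d A ε hε
  refine ⟨|B| + κ + 1, c, max T₀ (max 1 (1 / c₀)), by positivity, fun F _ _ hF ι T hT X hX => ?_⟩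
  have hT0 : T₀ ≤ T := (le_max_left _ _).trans hT
  have hT1 : 1 ≤ T := ((le_max_left _ _).trans (le_max_right _ _)).trans hT
  have hTc : 1 / c₀ ≤ T := ((le_max_right _ _).trans (le_max_right _ _)).trans hT
  have hfin : {q : Fin n → F | ∀ h, q h ∈ X}.Finite := by
    have : {q : Fin n → F | ∀ h, q h ∈ X} = ((Fintype.piFinset fun _ : Fin n => X : Finset (Fin n → F)) : Set (Fin n → F)) := by
      ext q
      simp
    rw [this]
    exact Finset.finite_toSet _
  refine ⟨hfin.subset fun q hq => hq.1, ?_⟩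
  refine le_trans ?_ (H F hF ι (fun j => l ^ (j : ℕ)) T hT0 X (fun x hx => hX x hx))
  rw [Nat.cast_le]
  refine Set.ncard_le_ncard ?_ (hfin.subset fun q hq => hq.1)
  rintro q ⟨hq, h, hTh, hhA, P, hP0, hPd, hPn, hPc, hval⟩
  have hh1 : 1 ≤ h := hT1.trans hTh
  have hh0 : 0 < h := by linarith
  refine ⟨hq, P.map (aeval l : ℤ[X] →ₐ[ℤ] ℂ).toRingHom, fun x => ?_, fun s => ?_, ?_⟩
  · rw [MvPolynomial.degreeOf_le_iff]
    intro s hs
    exact (MvPolynomial.monomial_le_degreeOf x (MvPolynomial.support_map_subset _ _ hs)).trans (hPd x)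
  · refine ⟨fun j => (((P.coeff s).coeff j : ℤ) : 𝓞 F), fun j φ => ?_, ?_⟩
    · have e : φ (((((P.coeff s).coeff j : ℤ) : 𝓞 F)) : F) = (((P.coeff s).coeff j : ℤ) : ℂ) := by
        simp
      rw [e, ← Complex.ofReal_intCast, Complex.norm_real, Real.norm_eq_abs]
      exact (hPc s j).trans hhA
    · rw [MvPolynomial.coeff_map]
      show aeval l (P.coeff s) = _
      rw [aeval_eq_sum_range' (n := d + 1) (by have := hPn s; omega), ← Fin.sum_univ_eq_sum_range
        (fun j => ((P.coeff s).coeff j) • l ^ j)]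
      refine Finset.sum_congr rfl fun j _ => ?_
      rw [zsmul_eq_mul, mul_comm]
      simp
  · obtain ⟨s₀, hs₀⟩ := MvPolynomial.ne_zero_iff.1 hP0
    have h1 : c₀ ≤ h ^ κ * ‖aeval l (P.coeff s₀)‖ := hmeas _ hs₀ (hPn s₀) h hh1 (hPc s₀)
    have hco : (P.map (aeval l : ℤ[X] →ₐ[ℤ] ℂ).toRingHom).coeff s₀ = aeval l (P.coeff s₀) := by
      rw [MvPolynomial.coeff_map]
      rfl
    refine ⟨s₀, ?_, ?_⟩
    · rw [hco]
      intro h0
      rw [h0, norm_zero, mul_zero] at h1
      linarith
    · rw [hco]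
      have e : MvPolynomial.aeval (fun x : Fin n × Fin k => f x.2 (ι (q x.1)))
          (P.map (aeval l : ℤ[X] →ₐ[ℤ] ℂ).toRingHom) = val l (fun x => f x.2 (ι (q x.1))) P := by
        rw [MvPolynomial.aeval_def, MvPolynomial.eval₂_map]
        rfl
      rw [e]
      refine hval.le.trans ?_
      have h2 : h ^ (-|B|) ≤ T ^ (-B) := by
        calc h ^ (-|B|) ≤ T ^ (-|B|) := Real.rpow_le_rpow_of_nonpos (by linarith) hTh (by simp)
          _ ≤ T ^ (-B) := Real.rpow_le_rpow_of_exponent_le hT1 (neg_le_neg (le_abs_self B))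
      have h3 : h ^ (-κ - 1) ≤ ‖aeval l (P.coeff s₀)‖ := by
        have h4 : h ^ (-1 : ℝ) ≤ c₀ := by
          rw [Real.rpow_neg_one]
          rw [div_le_iff₀ hc₀] at hTc
          rw [inv_le_iff_one_le_mul₀ hh0]
          nlinarith
        have h5 : h ^ (-κ) * (h ^ κ * ‖aeval l (P.coeff s₀)‖) = ‖aeval l (P.coeff s₀)‖ := by
          rw [← mul_assoc, ← Real.rpow_add hh0, neg_add_cancel, Real.rpow_zero, one_mul]
        rw [← h5, sub_eq_add_neg, Real.rpow_add hh0]
        refine mul_le_mul_of_nonneg_left (h4.trans h1) (Real.rpow_nonneg hh0.le _)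
      have h6 : h ^ (-(|B| + κ + 1)) = h ^ (-|B|) * h ^ (-κ - 1) := by
        rw [← Real.rpow_add hh0]
        congr 1
        ring
      rw [h6]
      exact mul_le_mul h2 h3 (Real.rpow_nonneg hh0.le _) (Real.rpow_nonneg (by linarith) _)

end Pool.Agent.Results.MP_3cf473_nt.LogarithmsOfPolynomialValues
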