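import Mathlib
import Pool.Agent.Q165.LM

/-!
# Two logarithms: at every height at most one irreducible polynomial is small

Let `l` be a logarithm of a root of a Gaussian rational number, `l ≠ 0` (for instance `log 2`, `iπ`, `log (2 + i)`, any
branch), let `D ≥ 1`, and let `t` be any complex number, for instance any other logarithm of an algebraic number. The
question is whether `|P(l, t)| ≥ H ^ (-C)` for all nonzero integer polynomials of degree at most `D` and height at most
`H`. We prove this, with an exponent which depends on `l` and `D` only (not on `t`), for all polynomials except for the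
multiples of one irreducible polynomial `R`, which depends on `H` and `t`. The irreducible polynomials `R` with
`|R(l, t)| ≤ height(R) ^ (-w)` are sparse, for large `w`: at most `log log X / log ρ + C` of them have height at most `X`.

The proof uses the transcendence measure of `l` and the elimination in the starting files `Pool/Agent/TH456/TM/`, and
Mignotte's bound for the heights of the factors of a polynomial in two variables (`Pool/Agent/Q165/LM`).
-/

set_option autoImplicit false

namespace Pool.Agent.Results.MP_3cf473_nt.OneExceptionalFactor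

open Polynomial

/-- the value `P(l, t)` of a polynomial in two variables, an element of `ℤ[x][y]`, at `x = l`, `y = t` -/
noncomputable def val (l t : ℂ) (P : ℤ[X][X]) : ℂ := (P.map (aeval l : ℤ[X] →ₐ[ℤ] ℂ).toRingHom).eval t

/-- the largest absolute value of a coefficient of `P` -/
noncomputable def height (P : ℤ[X][X]) : ℕ :=
  P.support.sup fun j => (P.coeff j).support.sup fun i => ((P.coeff j).coeff i).natAbs

/-- the degree of `P` in each of the two variables is at most `D` -/
def DegLE (D : ℕ) (P : ℤ[X][X]) : Prop := P.natDegree ≤ D ∧ ∀ j, (P.coeff j).natDegree ≤ D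

/-- the irreducible polynomials of degree at most `D` in each variable (one of `P`, `-P`) which satisfy
`|P(l, t)| ≤ height(P) ^ (-w)` and have height at most `X` -/
def Small (l t : ℂ) (D : ℕ) (w Y : ℝ) : Set ℤ[X][X] :=
  {P | Irreducible P ∧ DegLE D P ∧ 0 < P.leadingCoeff.leadingCoeff ∧ ‖val l t P‖ ≤ (height P : ℝ) ^ (-w) ∧
    (height P : ℝ) ≤ Y}

/-- **Two logarithms.** Let `l ≠ 0` be such that `exp (m l)` is a Gaussian rational number for some `m ≥ 1`, and `D ≥ 1`.
There is `κ > 0` such that (1) for every `T` there is `c > 0` such that for every complex number `t` with `|t| ≤ T` and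
every `H ≥ 1` there is an irreducible `R ∈ ℤ[x, y]` such that `|P(l, t)| ≥ c H ^ (-κ)` for all nonzero `P ∈ ℤ[x, y]` of
degree at most `D` in each variable, with coefficients of absolute value at most `H`, which are not divisible by `R`;
(2) for every `t` and `1 < ρ < w / κ` there is `C` such that at most `log log Y / log ρ + C` irreducible polynomials of
height at most `Y` satisfy `|P(l, t)| ≤ height(P) ^ (-w)`. -/
theorem result (l : ℂ) (hl : l ≠ 0) (hlog : ∃ m : ℕ, 1 ≤ m ∧ ∃ p q : ℚ, Complex.exp (m * l) = p + q * Complex.I)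
    (D : ℕ) (hD : 1 ≤ D) :
    ∃ κ : ℝ, 0 < κ ∧
      (∀ T : ℝ, ∃ c : ℝ, 0 < c ∧ ∀ t : ℂ, ‖t‖ ≤ T → ∀ H : ℝ, 1 ≤ H →
        ∃ R : ℤ[X][X], Irreducible R ∧ ∀ P : ℤ[X][X], P ≠ 0 → DegLE D P →
          (∀ j i, |((P.coeff j).coeff i : ℝ)| ≤ H) → ¬ R ∣ P → c * H ^ (-κ) ≤ ‖val l t P‖) ∧
      (∀ (t : ℂ) (w ρ : ℝ), 1 < ρ → ρ < w / κ → ∃ C : ℝ, ∀ Y : ℝ, 3 ≤ Y →
        (Small l t D w Y).Finite ∧ ((Small l t D w Y).ncard : ℝ) ≤ Real.log (Real.log Y) / Real.log ρ + C) := by
  obtain ⟨m, hm, p, q, hpq⟩ := hlog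
  obtain ⟨κ, hκ, h1, h2⟩ := Pool.Agent.Q165.LM.main l (Pool.Agent.Q165.LM.measT_gaussLog l hl m hm p q hpq) D hD
  refine ⟨κ, hκ, fun T => ?_, fun t w ρ hρ hρw => ?_⟩
  · obtain ⟨c, hc, h1⟩ := h1 T
    refine ⟨c, hc, fun t ht H hH => ?_⟩
    obtain ⟨R, hR, h1⟩ := h1 t ht H hH
    exact ⟨R, hR, fun P a1 a2 a3 a4 => h1 P a1 a2.1 a2.2 a3 a4⟩
  · obtain ⟨C, h2⟩ := h2 t w ρ hρ hρw
    refine ⟨C, fun Y hY => ?_⟩
    have h3 : Small l t D w Y = {P ∈ {P : ℤ[X][X] | P ∈ Pool.Agent.TH456.TM.IR D ∧
        ‖Pool.Agent.TH456.TM.vl l t P‖ ≤ (Pool.Agent.TH456.TM.hgt P : ℝ) ^ (-w)} |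
          (Pool.Agent.TH456.TM.hgt P : ℝ) ≤ Y} := by
      ext P
      constructor
      · rintro ⟨a1, a2, a3, a4, a5⟩
        exact ⟨⟨⟨a1, a2.1, a2.2, a3⟩, a4⟩, a5⟩
      · rintro ⟨⟨⟨a1, a2, a3, a4⟩, a5⟩, a6⟩
        exact ⟨a1, ⟨a2, a3⟩, a4, a5, a6⟩
    rw [h3]
    exact h2 Y hY

end Pool.Agent.Results.MP_3cf473_nt.OneExceptionalFactor
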