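import Pool.Agent.Q229.RAE
import Pool.Agent.Results.MP_3cf473_nt.AlmostAllRationals

/-!
# The measure for logarithms of algebraic numbers at ALL rational points near almost every real point

For every `j ≤ n` let `x_(j,1), …, x_(j,k)` be distinct real (for instance algebraic) numbers. We consider the numbers `π i` and
`log (q_j + x_(j,i))` for `n`-tuples `q` of rational numbers.

The starting file `AlmostAllRationals` shows that the inequality `|P| ≥ H ^ (-C)` of the problem holds for all heights `H`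
between `T` and `T ^ A` for all but `T^(2(n-1)+ε)` of the tuples of height `T`; here we find by coverings that it holds for ALL
rational points near all real points outside a set of small Hausdorff dimension (dimension zero for `n = 1`).
-/

set_option autoImplicit false

open MeasureTheory Filter
open Pool.Agent.Results.MP_3cf473_nt.AlmostAllRationals (exists_real)

namespace Pool.Agent.Results.MP_3cf473_nt.RationalsNearRealPoints

/-- The complex numbers `π i` and `log (q_j + x_(j,i))` (logarithms of algebraic numbers if the `x_(j,i)` are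
algebraic). -/
noncomputable def logs {n k : ℕ} (x : Fin n → Fin k → ℝ) (q : Fin n → ℚ) : Option (Fin n × Fin k) → ℂ
  | none => Real.pi * Complex.I
  | some (j, i) => Real.log (q j + x j i)

/-- **Theorem.** Let `n ≥ 1` and for every `j ≤ n` let `x_(j,1), …, x_(j,k)` be distinct real numbers. For every `τ > 0` there is a
set `Z ⊂ ℝ^n` of Hausdorff dimension at most `2 (n - 1) / τ` (dimension `0` for `n = 1`), and of Lebesgue measure zero if
`2 (n - 1) < n τ`, such that for all `y ∉ Z` with all `y_j + x_(j,i) > 0`, all `d`, `A`, some `C > 0` and all sufficiently large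
`T` the following holds for ALL rational points `q` with denominators at most `T` and `|y_j - q_j| ≤ T ^ (-τ)`: for all `H`
between `T` and `T ^ A` and all nonzero integer polynomials `P` of degree at most `d` in each variable with coefficients at
most `H` the value of `P` at the numbers `π i`, `log (q_j + x_(j,i))` has absolute value at least `H ^ (-C)`. -/
theorem result (n k : ℕ) (hn : 1 ≤ n) (x : Fin n → Fin k → ℝ) (hx : ∀ j, Function.Injective (x j)) (τ : ℝ) (hτ : 0 < τ) :
    ∃ Z : Set (Fin n → ℝ), dimH Z ≤ ENNReal.ofReal (2 * ((n : ℝ) - 1) / τ) ∧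
      (2 * ((n : ℝ) - 1) < n * τ → volume Z = 0) ∧
      ∀ y : Fin n → ℝ, (∀ j i, 0 < y j + x j i) → y ∉ Z → ∀ (d : ℕ) (A : ℝ), ∃ C : ℝ, 0 < C ∧ ∀ᶠ T : ℝ in atTop,
        ∀ q : Fin n → ℚ, (∀ j, ((q j).den : ℝ) ≤ T ∧ |y j - q j| ≤ T ^ (-τ)) →
        ∀ H : ℝ, T ≤ H → H ≤ T ^ A → ∀ P : MvPolynomial (Option (Fin n × Fin k)) ℤ, P ≠ 0 →
          (∀ z, P.degreeOf z ≤ d) → (∀ u, |((P.coeff u : ℤ) : ℝ)| ≤ H) →
          H ^ (-C) ≤ ‖MvPolynomial.aeval (logs x q) P‖ := by
  have hopen : ∀ j, IsOpen {t : ℝ | ∀ i, 0 < t + x j i} := by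
    intro j
    have h1 : {t : ℝ | ∀ i, 0 < t + x j i} = ⋂ i, {t : ℝ | 0 < t + x j i} := by
      ext t
      simp
    rw [h1]
    exact isOpen_iInter_of_finite fun i => isOpen_lt continuous_const (continuous_id.add continuous_const)
  obtain ⟨Z, h1, h2, h3⟩ := Pool.Agent.Q229.RA.masterOR hn
    (fun j (i : Fin k) t => Real.log (t + x j i)) (fun j => {t : ℝ | ∀ i, 0 < t + x j i}) hopen
    (fun j i t ht => TH659.AQ.lf_an (x j) i (ht i))
    (fun j a b hab hsub d => TH659.AQ.log_ind d k (x j) (hx j) a b (hsub ⟨le_rfl, hab.le⟩) hab)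
    (fun q => Pool.Agent.Y120.vR (fun j i t => Real.log (t + x j i)) q) (fun _ => rfl)
    (fun _ _ _ _ => rfl) τ hτ
  refine ⟨Z, h1, h2, fun y hyD hy d A => ?_⟩
  obtain ⟨B, hB⟩ := h3 y hyD hy d A
  refine ⟨|B| + 1, by positivity, ?_⟩
  filter_upwards [hB, eventually_ge_atTop 1] with T hT hT1 q hq H hH1 hH2 P hP hdeg hcoef
  obtain ⟨Q, hQ0, hQd, hQc, hQs⟩ := exists_real x q P hP
  have h4 := hT q hq Q hQ0 (fun z => (hQd z).trans (hdeg z)) (fun u => (hQc u).trans ((hcoef u).trans hH2))
  have h5 : H ^ (-(|B| + 1)) ≤ T ^ (-(|B| + 1)) :=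
    Real.rpow_le_rpow_of_nonpos (by linarith) hH1 (by linarith [abs_nonneg B])
  have h6 : T ^ (-(|B| + 1)) ≤ T ^ (-B) :=
    Real.rpow_le_rpow_of_exponent_le hT1 (by linarith [le_abs_self B])
  exact (h5.trans h6).trans (h4.le.trans hQs)

end Pool.Agent.Results.MP_3cf473_nt.RationalsNearRealPoints
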